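import Pool.Agent.N470.RW.FinA

set_option autoImplicit false

/-!
# The Bombieri-Lang-Vojta conjecture for random words

Let `V` be an affine variety over a number field `K`, the zeros in affine `n`-space of finitely many
polynomials `F` with coefficients in `𝓞 K`, and `V'` the closed subset of `V` given by `G`.  For a
number field `L ⊇ K`, invertible `r × r` matrices `A₁, …, A_s`, a matrix `M` with `n` rows, and a
vector `v` over `L`, a word `w` of length `m` in the letters `1, …, s` represents the point
`M A_{w 0} ⋯ A_{w (m - 1)} v` of affine `n`-space.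

The following are equivalent:

* (`GmCurvesIn`) every nonconstant map from the punctured complex line to `V` lies in `V'`;
* (`RandomFinite`) for ALL number fields `L ⊇ K`, all `r`, `s ≥ 1`, `A`, `M`, `v` as above, and `d`
  bounding the degrees of the polynomials `F`, there is a set `E` of at most
  `∏_{f = 1}^{[L : ℚ]} |GL_r(𝔽_{2^f})| |GL_r(𝔽_{3^f})|` points such that, for all `N ≥ 1`, the mean
  over the lengths `m < N` of the proportion of the words of length `m` which represent points of
  `V` neither in `V'` nor in `E` is at most `6 s N ^ (-c)`, where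
  `c = (1 / 2) ^ (binom (r + d) d + 2)`.

Both conditions of the Bombieri-Lang-Vojta conjecture, (i) on entire curves and (ii) on
`S`-integral points, imply these.
-/

namespace Pool.Agent.Results.MP_e97a4d_nt.RandomWordsIntegral

open MvPolynomial Pool.Agent.W235.RM
open Pool.Agent.H159R3.Exp (FinitelyManyIntegral)
open scoped NumberField

variable {K : Type} [Field K] {ι κ : Type} {n : ℕ}

/-- the common zeros of `F` with coordinates in `L` -/
def Zeros (F : ι → MvPolynomial (Fin n) (𝓞 K)) (L : Type) [Field L] [Algebra K L] :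
    Set (Fin n → L) :=
  {x | ∀ i, eval₂ ((algebraMap K L).comp (algebraMap (𝓞 K) K)) x (F i) = 0}

/-- the point `M A_{w 0} ⋯ A_{w (m - 1)} v` represented by a word -/
def wordPt {L : Type} [Field L] {r s m : ℕ} (M : Matrix (Fin n) (Fin r) L)
    (A : Fin s → Matrix.GeneralLinearGroup (Fin r) L) (v : Fin r → L) (w : Fin m → Fin s) :
    Fin n → L :=
  M.mulVec ((((List.ofFn fun i => A (w i)).prod : Matrix.GeneralLinearGroup (Fin r) L) :
    Matrix (Fin r) (Fin r) L).mulVec v)

/-- the words of length `m` which represent points of `V` neither in `V'` nor in `E` -/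
def wordsOff (F : ι → MvPolynomial (Fin n) (𝓞 K)) (G : κ → MvPolynomial (Fin n) (𝓞 K))
    {L : Type} [Field L] [Algebra K L] {r s : ℕ} (M : Matrix (Fin n) (Fin r) L)
    (A : Fin s → Matrix.GeneralLinearGroup (Fin r) L) (v : Fin r → L) (E : Set (Fin n → L))
    (m : ℕ) : Set (Fin m → Fin s) :=
  {w | wordPt M A v w ∈ Zeros F L \ (Zeros G L ∪ E)}

/-- the product of the orders of `GL_r` over the fields with `2 ^ f` and `3 ^ f` elements for
`f ≤ D` -/
def bound (r D : ℕ) : ℕ := ∏ f ∈ Finset.Icc 1 D,
  ((∏ i ∈ Finset.range r, ((2 ^ f) ^ r - (2 ^ f) ^ i)) *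
    ∏ i ∈ Finset.range r, ((3 ^ f) ^ r - (3 ^ f) ^ i))

/-- random words rarely represent points of `V` outside `V'`, except for a bounded number of
points -/
def RandomFinite (F : ι → MvPolynomial (Fin n) (𝓞 K)) (G : κ → MvPolynomial (Fin n) (𝓞 K)) :
    Prop :=
  ∀ (L : Type) [Field L] [NumberField L] [Algebra K L] (r s d : ℕ), 1 ≤ s →
    (∀ i, (F i).totalDegree ≤ d) → ∀ (M : Matrix (Fin n) (Fin r) L)
    (A : Fin s → Matrix.GeneralLinearGroup (Fin r) L) (v : Fin r → L),
    ∃ E : Set (Fin n → L), E.encard ≤ bound r (Module.finrank ℚ L) ∧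
      ∀ N : ℕ, 1 ≤ N → (∑ m ∈ Finset.range N, ((wordsOff F G M A v E m).ncard : ℝ) / s ^ m) / N ≤
        6 * s * (N : ℝ) ^ (-(1 / 2 : ℝ) ^ ((r + d).choose d + 2))

theorem result {K : Type} [Field K] [NumberField K] (σ : K →+* ℂ) {ι κ : Type} [Finite ι] {n : ℕ}
    (F : ι → MvPolynomial (Fin n) (𝓞 K)) (G : κ → MvPolynomial (Fin n) (𝓞 K)) :
    (GmCurvesIn σ F G ↔ RandomFinite F G) ∧
    (EntireCurvesIn σ F G → RandomFinite F G) ∧
    (FinitelyManyIntegral F G → RandomFinite F G) :=
  Pool.Agent.N470.RW.rareV_iff σ F G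

end Pool.Agent.Results.MP_e97a4d_nt.RandomWordsIntegral
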