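import Pool.Agent.N470.RW.Fin
import Pool.Agent.TH409.SH.Fin2

set_option autoImplicit false

/-!
# Random words on hyperbolic varieties

Let `X` be the closed subset of projective `n`-space over a number field `k` given by the forms in
`FF`, and let `σ` be an embedding of `k` in `ℂ`.  Let `K ⊇ k` be a number field, `A₁, …, A_s`
invertible `r × r` matrices, `M` a matrix with `n + 1` rows, and `v` a vector, over `K`.  A word
`w` of length `m` in the letters `1, …, s` represents the point of projective space with homogeneous
coordinates `M A_{w 0} ⋯ A_{w (m - 1)} v`, if this vector is not zero.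

(1) If `X_σ` is Brody (equivalently Kobayashi) hyperbolic, then `X_σ` contains no nonconstant
rational curve.

(2) `X_σ` contains no nonconstant rational curve if and only if random words rarely represent points
of `X`, except for a bounded number of points: for ALL number fields `K ⊇ k`, all `r`, `s ≥ 1`, `A`,
`M`, `v` as above, and `d` bounding the degrees of the forms, there is a set `E` of at most
`bd r [K : ℚ]` points such that, for all `N ≥ 1`, the mean over the lengths `m < N` of the
proportion of the words of length `m` which represent points of `X` outside `E` is at most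
`6 s N ^ (-c)`, where `c = (1 / 2) ^ (binom (r + d) d + 2)`.  Here `bd r D` is the product of the
orders of `GL_r(𝔽_{2^f})` and `GL_r(𝔽_{3^f})` for `f ≤ D`, and the bounds do not depend on `X`, the
matrices, the vector and (for given degree) the number field.
-/

namespace Pool.Agent.Results.MP_627a61_nt.RandomWords

open MvPolynomial Pool.Agent.H458.Sp Pool.Agent.TH717.GO

variable {n r s : ℕ} {k K : Type} [Field k] [Field K] [Algebra k K]

/-- the homogeneous coordinates `M A_{w 0} ⋯ A_{w (m - 1)} v` of the point represented by a word -/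
def wordVec (M : Matrix (Fin (n + 1)) (Fin r) K) (A : Fin s → Matrix.GeneralLinearGroup (Fin r) K)
    (v : Fin r → K) {m : ℕ} (w : Fin m → Fin s) : Fin (n + 1) → K :=
  M.mulVec ((((List.ofFn fun i => A (w i)).prod : Matrix.GeneralLinearGroup (Fin r) K) :
    Matrix (Fin r) (Fin r) K).mulVec v)

/-- the words of length `m` which represent points of the zero set `X` of `FF` outside `E` -/
def wordsOnX (FF : Finset (MvPolynomial (Fin (n + 1)) k)) (M : Matrix (Fin (n + 1)) (Fin r) K)
    (A : Fin s → Matrix.GeneralLinearGroup (Fin r) K) (v : Fin r → K)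
    (E : Set (Projectivization K (Fin (n + 1) → K))) (m : ℕ) : Set (Fin m → Fin s) :=
  {w | (∀ F ∈ FF, aeval (wordVec M A v w) F = 0) ∧
    ∃ h : wordVec M A v w ≠ 0, Projectivization.mk K (wordVec M A v w) h ∉ E}

/-- random words rarely represent points of the zero set `X` of `FF`, except for a bounded number of
points -/
def WordsRare (FF : Finset (MvPolynomial (Fin (n + 1)) k)) : Prop :=
  ∀ (K : Type) [Field K] [NumberField K] [Algebra k K] (r s d : ℕ), 1 ≤ s →
    (∀ F ∈ FF, F.totalDegree ≤ d) → ∀ (M : Matrix (Fin (n + 1)) (Fin r) K)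
    (A : Fin s → Matrix.GeneralLinearGroup (Fin r) K) (v : Fin r → K),
    ∃ E : Set (Projectivization K (Fin (n + 1) → K)), E.encard ≤ bd r (Module.finrank ℚ K) ∧
      ∀ N : ℕ, 1 ≤ N → (∑ m ∈ Finset.range N, ((wordsOnX FF M A v E m).ncard : ℝ) / s ^ m) / N ≤
        6 * s * (N : ℝ) ^ (-(1 / 2 : ℝ) ^ ((r + d).choose d + 2))

theorem result (k : Type) [Field k] [NumberField k] (n : ℕ)
    (FF : Finset (MvPolynomial (Fin (n + 1)) k)) (hhom : ∀ F ∈ FF, ∃ e, F.IsHomogeneous e)
    (σ : k →+* ℂ) :
    (BrodyHyperbolic ((MvPolynomial.map σ) '' (FF : Set (MvPolynomial (Fin (n + 1)) k))) →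
      NoRatC σ (FF : Set (MvPolynomial (Fin (n + 1)) k))) ∧
    (NoRatC σ (FF : Set (MvPolynomial (Fin (n + 1)) k)) ↔ WordsRare FF) := by
  refine ⟨fun hyp => ?_, fun hno => ?_, fun hrw => ?_⟩
  · intro q hq i j a b
    refine Pool.Agent.TH409.SH.no_curveC' _ ?_ hyp q ?_ i j a b
    · rintro _ ⟨F, hF, rfl⟩
      obtain ⟨e, he⟩ := hhom F hF
      exact ⟨e, he.map _⟩
    · rintro _ ⟨F, hF, rfl⟩
      rw [aeval_def, MvPolynomial.eval₂_map]
      exact hq F hF
  · exact Pool.Agent.N470.RW.fwd σ FF hhom hno
  · exact Pool.Agent.N470.RW.bwd σ FF hrw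

end Pool.Agent.Results.MP_627a61_nt.RandomWords
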